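import Pool.Agent.R289.NotReg

set_option autoImplicit false

/-!
# A non-amenable group with a non-regular bounded convolution operator

The group is the free group on two generators with the discrete topology, and `p = 2`.
-/

namespace Pool.Agent.Results.MP_b39683_an.FreeGroupNotRegular

open scoped ENNReal
open Filter Topology Pool.Agent.R289.Conv Pool.Agent.R289.L1 Pool.Agent.R289.RS
  Pool.Agent.R289.NotReg

/-- The discrete group `G` is amenable: there is a left invariant finitely additive probability
measure defined on all subsets of `G`. -/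
def IsAmenable (G : Type) [Group G] : Prop :=
  ∃ m : Set G → ℝ, (∀ A, 0 ≤ m A) ∧ m Set.univ = 1 ∧
    (∀ A B, Disjoint A B → m (A ∪ B) = m A + m B) ∧
    ∀ (g : G) (A : Set G), m ((fun x => g * x) '' A) = m A

/-- The linear map `S` on `ℓ²(G)` is positive: it maps nonnegative functions to nonnegative
functions (boundedness is not required). -/
def IsPositive {G : Type} (S : Ell G 2 →ₗ[ℂ] Ell G 2) : Prop :=
  ∀ f : Ell G 2, (∀ x, 0 ≤ (f x).re ∧ (f x).im = 0) → ∀ x, 0 ≤ (S f x).re ∧ (S f x).im = 0

/-- The bounded operator `T` on `ℓ²(G)` is regular: it is a complex linear combination of positive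
operators. -/
def IsRegular {G : Type} (T : Ell G 2 →L[ℂ] Ell G 2) : Prop :=
  ∃ (n : ℕ) (c : Fin n → ℂ) (S : Fin n → (Ell G 2 →ₗ[ℂ] Ell G 2)),
    (∀ i, IsPositive (S i)) ∧ ∀ f, T f = ∑ i, c i • S i f

theorem free_not_amenable : ¬ IsAmenable (FreeGroup (Fin 2)) := by
  rintro ⟨m, hpos, huniv, hadd, hinv⟩
  have hmono : ∀ A B : Set (FreeGroup (Fin 2)), A ⊆ B → m A ≤ m B := by
    intro A B hAB
    have h1 := hadd A (B \ A) Set.disjoint_sdiff_right
    rw [Set.union_sdiff_cancel hAB] at h1
    have := hpos (B \ A)
    linarith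
  have hsub : ∀ A B : Set (FreeGroup (Fin 2)), m (A ∪ B) ≤ m A + m B := by
    intro A B
    have h1 := hadd A (B \ A) Set.disjoint_sdiff_right
    rw [Set.union_sdiff_self] at h1
    have := hmono (B \ A) B Set.sdiff_subset
    linarith
  -- the two halves
  have half : ∀ i : Fin 2, 1 ≤ m (FreeGroup.startsWith (i, true)) +
      m (FreeGroup.startsWith (i, false)) := by
    intro i
    set g : FreeGroup (Fin 2) := FreeGroup.mk [(i, false)] with hg
    have h1 : (Set.univ : Set (FreeGroup (Fin 2))) ⊆ FreeGroup.startsWith (i, true) ∪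
        (fun x => g⁻¹ * x) '' FreeGroup.startsWith (i, false) := by
      intro x _
      by_cases hx : x ∈ FreeGroup.startsWith (i, true)
      · exact Or.inl hx
      · right
        refine ⟨g * x, ?_, inv_mul_cancel_left g x⟩
        exact FreeGroup.startsWith_mk_mul (w := (i, false)) x (by simpa using hx)
    have h2 := hmono _ _ h1
    have h3 := hsub (FreeGroup.startsWith (i, true))
      ((fun x => g⁻¹ * x) '' FreeGroup.startsWith (i, false))
    rw [hinv] at h3
    rw [huniv] at h2
    linarith
  have d : ∀ w w' : Fin 2 × Bool, w ≠ w' →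
      Disjoint (FreeGroup.startsWith w) (FreeGroup.startsWith w') := fun w w' h =>
    FreeGroup.startsWith.disjoint_iff_ne.2 h
  have e1 := hadd _ _ (d (0, true) (0, false) (by decide))
  have e2 := hadd _ _ (d (1, true) (1, false) (by decide))
  have e3 := hadd (FreeGroup.startsWith ((0 : Fin 2), true) ∪ FreeGroup.startsWith (0, false))
    (FreeGroup.startsWith (1, true) ∪ FreeGroup.startsWith (1, false)) (by
      rw [Set.disjoint_union_left, Set.disjoint_union_right, Set.disjoint_union_right]
      exact ⟨⟨d _ _ (by decide), d _ _ (by decide)⟩, ⟨d _ _ (by decide), d _ _ (by decide)⟩⟩)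
  have e4 := hmono _ Set.univ (Set.subset_univ ((FreeGroup.startsWith ((0 : Fin 2), true) ∪
    FreeGroup.startsWith (0, false)) ∪
    (FreeGroup.startsWith (1, true) ∪ FreeGroup.startsWith (1, false))))
  have h0 := half 0
  have h1 := half 1
  rw [e3, e1, e2, huniv] at e4
  linarith

theorem pow_injective : Function.Injective fun n : ℕ => (FreeGroup.of (0 : Fin 2)) ^ n := by
  intro a b h
  have h1 := congrArg (FreeGroup.lift fun _ : Fin 2 => Multiplicative.ofAdd (1 : ℤ)) h
  simp only [map_pow, FreeGroup.lift_apply_of] at h1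
  have h2 := congrArg Multiplicative.toAdd h1
  simp only [toAdd_pow, toAdd_ofAdd, smul_eq_mul, mul_one, nsmul_eq_mul] at h2
  exact_mod_cast h2

/-- There are a non-amenable discrete group `G` and a bounded operator `T` on `ℓ²(G)` which
commutes with all right translations and is not regular. -/
theorem result : ∃ (G : Type) (_ : Group G), ¬ IsAmenable G ∧
    ∃ T : Ell G 2 →L[ℂ] Ell G 2,
      (∀ (s : G) (f g : Ell G 2), (∀ x, g x = f (x * s)) → ∀ x, T g x = T f (x * s)) ∧
      ¬ IsRegular T := by
  refine ⟨FreeGroup (Fin 2), inferInstance, free_not_amenable, T (FreeGroup.of 0), ?_, ?_⟩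
  · intro s f g hg x
    have h : g = R hp2 s f := by
      ext x
      exact hg x
    rw [h, T_R]; rfl
  · rintro ⟨n, c, S, hS, hT⟩
    exact not_regular (FreeGroup.of 0) pow_injective n c S hS hT

end Pool.Agent.Results.MP_b39683_an.FreeGroupNotRegular
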